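import Mathlib

/-!
# Degree bounds (packet L4)
-/

namespace Pool.Agent.Helper84.TL

open Polynomial IntermediateField

theorem natDegree_minpoly_rat_le {F k : Type*} [Field F] [CharZero F] [Field k] [CharZero k]
    [Algebra F k] [FiniteDimensional ℚ (algebraicClosure ℚ F)] (θ : k) (hF : IsIntegral F θ)
    (hQ : IsIntegral ℚ θ) :
    (minpoly ℚ θ).natDegree ≤
      (minpoly F θ).natDegree * Module.finrank ℚ (algebraicClosure ℚ F) := by
  have hdvd : minpoly F θ ∣ (minpoly ℚ θ).map (algebraMap ℚ F) :=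
    minpoly.dvd_map_of_isScalarTower ℚ F θ
  obtain ⟨g, hg⟩ := (integralClosure.mem_lifts_of_monic_of_dvd_map F (minpoly.monic hQ)
    (minpoly.monic hF) hdvd)
  -- every coefficient lies in the relative algebraic closure
  have hlift : minpoly F θ ∈ lifts (algebraMap (algebraicClosure ℚ F) F) := by
    rw [lifts_iff_coeff_lifts]
    intro n
    rw [← hg]
    have h1 : IsIntegral ℚ ((algebraMap (integralClosure ℚ F) F) (g.coeff n)) :=
      (g.coeff n).2
    have h2 : (algebraMap (integralClosure ℚ F) F) (g.coeff n) ∈ algebraicClosure ℚ F := by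
      rw [mem_algebraicClosure_iff]
      exact h1.isAlgebraic
    refine ⟨⟨_, h2⟩, ?_⟩
    simp
  obtain ⟨f, hf, hfdeg, hfm⟩ := lifts_and_natDegree_eq_and_monic hlift (minpoly.monic hF)
  have hroot : aeval θ f = 0 := by
    have h1 : aeval θ (f.map (algebraMap (algebraicClosure ℚ F) F)) = 0 := by
      rw [hf]; exact minpoly.aeval F θ
    rwa [aeval_map_algebraMap] at h1
  have hint : IsIntegral (algebraicClosure ℚ F) θ := ⟨f, hfm, by rwa [aeval_def] at hroot⟩
  have hle : (minpoly (algebraicClosure ℚ F) θ).natDegree ≤ (minpoly F θ).natDegree := by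
    rw [← hfdeg]
    exact natDegree_le_of_dvd (minpoly.dvd _ _ hroot) hfm.ne_zero
  have hfd : FiniteDimensional (algebraicClosure ℚ F)
      ((algebraicClosure ℚ F)⟮θ⟯) := adjoin.finiteDimensional hint
  have hfin : Module.finrank (algebraicClosure ℚ F) ((algebraicClosure ℚ F)⟮θ⟯) =
      (minpoly (algebraicClosure ℚ F) θ).natDegree := adjoin.finrank hint
  have hfdQ : FiniteDimensional ℚ ((algebraicClosure ℚ F)⟮θ⟯) :=
    FiniteDimensional.trans ℚ (algebraicClosure ℚ F) _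
  have hmul := Module.finrank_mul_finrank ℚ (algebraicClosure ℚ F) ((algebraicClosure ℚ F)⟮θ⟯)
  have hgen : (minpoly ℚ (AdjoinSimple.gen (algebraicClosure ℚ F) θ)).natDegree ≤
      Module.finrank ℚ ((algebraicClosure ℚ F)⟮θ⟯) := minpoly.natDegree_le _
  have heq : minpoly ℚ (AdjoinSimple.gen (algebraicClosure ℚ F) θ) = minpoly ℚ θ := by
    have := minpoly.algebraMap_eq (A := ℚ) (B := (algebraicClosure ℚ F)⟮θ⟯) (B' := k)
      (FaithfulSMul.algebraMap_injective _ _) (AdjoinSimple.gen (algebraicClosure ℚ F) θ)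
    rw [← this]
    rfl
  rw [heq] at hgen
  calc (minpoly ℚ θ).natDegree ≤ Module.finrank ℚ ((algebraicClosure ℚ F)⟮θ⟯) := hgen
    _ = Module.finrank ℚ (algebraicClosure ℚ F) *
        (minpoly (algebraicClosure ℚ F) θ).natDegree := by rw [← hmul, hfin]
    _ ≤ Module.finrank ℚ (algebraicClosure ℚ F) * (minpoly F θ).natDegree :=
        Nat.mul_le_mul_left _ hle
    _ = _ := Nat.mul_comm _ _

theorem natDegree_minpoly_div_le {F k : Type*} [Field F] [Field k] [Algebra F k] {d : ℕ}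
    (g : Matrix (Fin d) (Fin d) F) (x y : k)
    (hx : ((g.map (algebraMap F k)).charpoly).IsRoot x)
    (hy : ((g.map (algebraMap F k)).charpoly).IsRoot y) :
    IsIntegral F (x / y) ∧ (minpoly F (x / y)).natDegree ≤ d ^ 2 := by
  have key : ∀ z : k, ((g.map (algebraMap F k)).charpoly).IsRoot z →
      IsIntegral F z ∧ (minpoly F z).natDegree ≤ d := by
    intro z hz
    have hm : (g.map (algebraMap F k)).charpoly = g.charpoly.map (algebraMap F k) := by
      rw [← Matrix.charpoly_map]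
    have h0 : aeval z g.charpoly = 0 := by
      rw [hm, IsRoot, eval_map_algebraMap] at hz
      exact hz
    refine ⟨⟨g.charpoly, g.charpoly_monic, by rwa [aeval_def] at h0⟩, ?_⟩
    have := natDegree_le_of_dvd (minpoly.dvd F z h0) g.charpoly_monic.ne_zero
    rwa [Matrix.charpoly_natDegree_eq_dim, Fintype.card_fin] at this
  obtain ⟨hxi, hxd⟩ := key x hx
  obtain ⟨hyi, hyd⟩ := key y hy
  have hfx : FiniteDimensional F F⟮x⟯ := adjoin.finiteDimensional hxi
  have hfy : FiniteDimensional F F⟮y⟯ := adjoin.finiteDimensional hyi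
  have hsup : Module.finrank F ↥(F⟮x⟯ ⊔ F⟮y⟯) ≤ d ^ 2 := by
    refine (IntermediateField.finrank_sup_le F⟮x⟯ F⟮y⟯).trans ?_
    rw [adjoin.finrank hxi, adjoin.finrank hyi, pow_two]
    exact Nat.mul_le_mul hxd hyd
  have hfs : FiniteDimensional F ↥(F⟮x⟯ ⊔ F⟮y⟯) := inferInstance
  have hxm : x ∈ F⟮x⟯ ⊔ F⟮y⟯ := (le_sup_left : F⟮x⟯ ≤ _) (mem_adjoin_simple_self F x)
  have hym : y ∈ F⟮x⟯ ⊔ F⟮y⟯ := (le_sup_right : F⟮y⟯ ≤ _) (mem_adjoin_simple_self F y)
  have hxy : x / y ∈ F⟮x⟯ ⊔ F⟮y⟯ := div_mem hxm hym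
  have h1 := minpoly.natDegree_le (A := F) (⟨x / y, hxy⟩ : ↥(F⟮x⟯ ⊔ F⟮y⟯))
  have h2 : minpoly F (⟨x / y, hxy⟩ : ↥(F⟮x⟯ ⊔ F⟮y⟯)) = minpoly F (x / y) := by
    have := minpoly.algebraMap_eq (A := F) (B := ↥(F⟮x⟯ ⊔ F⟮y⟯)) (B' := k)
      (FaithfulSMul.algebraMap_injective _ _) (⟨x / y, hxy⟩ : ↥(F⟮x⟯ ⊔ F⟮y⟯))
    rw [← this]
    rfl
  have h3 : IsIntegral F (x / y) := by
    have := (Algebra.IsIntegral.isIntegral (R := F) (⟨x / y, hxy⟩ : ↥(F⟮x⟯ ⊔ F⟮y⟯))).map
      (F⟮x⟯ ⊔ F⟮y⟯).val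
    exact this
  refine ⟨h3, ?_⟩
  rw [h2] at h1
  exact h1.trans hsup

end Pool.Agent.Helper84.TL
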